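import Pool.Agent.Helper62.DSH.Res

/-!
# MP_087a81_gt: `L²` harmonic forms and the Weitzenboeck curvature term (degree shift)

Let `g` be a complete Riemannian metric of nonnegative sectional curvature on `ℝⁿ` and let the curvature
term `W_j` of the Bochner formula for forms of degree `j = m + 1` be nonnegative outside a compact set. Then the
spaces of `L²` harmonic forms of degree `j + 1` and of degree `n - j - 1` are finite dimensional. If `n ≤ 7` and
`W_2 ≥ 0` outside a compact set, this holds in all degrees.
-/

set_option autoImplicit false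

noncomputable section

namespace Pool.Agent.Results.MP_087a81_gt.DegreeShift

open Helper62.LH Helper62.DSH

/-- Let `g` be a complete metric on `ℝⁿ` of nonnegative sectional curvature and `K` a compact set.
(1) If the Weitzenboeck form of degree `m + 1` is nonnegative outside `K` then the `L²` harmonic forms of degree `m + 2`
and of degree `l = n - m - 2` form spaces of finite dimension, at most `n.choose (m + 1)` if `K = ∅`.
(2) If `n ≤ 7` and the Weitzenboeck form of degree `2` is nonnegative outside `K`, the spaces of `L²` harmonic forms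
of all degrees are finite dimensional. -/
theorem result (n : ℕ) (g : E n → Bl n) (hg : IsMet g) (hc : Cpl g) (hs : SecNonneg g)
    (K : Set (E n)) (hK : IsCompact K) :
    (∀ (m l : ℕ) (h : (m + 2) + l = n) (h' : l + (m + 2) = n),
      (∀ x ∉ K, WeitzNonneg g m x) → ∃ N : ℕ, (K = ∅ → N = n.choose (m + 1)) ∧
        DimLe {φ : E n → E n [⋀^Fin (m + 2)]→L[ℝ] ℝ | Harmonic h g φ} N ∧
        DimLe {φ : E n → E n [⋀^Fin l]→L[ℝ] ℝ | Harmonic h' g φ} N) ∧
    (n ≤ 7 → (∀ x ∉ K, WeitzNonneg g 1 x) → ∀ (k l : ℕ) (h : k + l = n), ∃ N : ℕ,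
      DimLe {φ : E n → E n [⋀^Fin k]→L[ℝ] ℝ | Harmonic h g φ} N) :=
  main'' n g hg hc hs K hK

end Pool.Agent.Results.MP_087a81_gt.DegreeShift
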