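import Pool.Agent.Helper62.LH.Res

/-!
# MP_087a81_gt: `L²` harmonic forms of complete metrics of nonnegative sectional curvature on `ℝⁿ`

For every complete Riemannian metric of nonnegative sectional curvature on `ℝⁿ` the space of
`L²` harmonic `k`-forms is finite dimensional for `k = 0, 1, 2, n-2, n-1, n`; in particular in all
degrees if `n ≤ 5`.
-/

set_option autoImplicit false

noncomputable section

namespace Pool.Agent.Results.MP_087a81_gt.LowDegrees

open Helper62.LH

/-- The `L²` harmonic `k`-forms of a complete metric of nonnegative sectional curvature on `ℝⁿ` form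
a finite dimensional vector space if `k ≤ 2` or `n - k ≤ 2`. -/
theorem result (n : ℕ) (g : E n → Bl n) (hg : IsMet g) (hc : Cpl g) (hs : SecNonneg g)
    (k l : ℕ) (h : k + l = n) (hkl : k ≤ 2 ∨ l ≤ 2) :
    DimLe {φ : E n → E n [⋀^Fin k]→L[ℝ] ℝ | Harmonic h g φ}
      (if k = 0 ∨ l = 0 then 1 else n) :=
  main' n g hg hc hs k l h hkl

end Pool.Agent.Results.MP_087a81_gt.LowDegrees
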