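import Pool.Agent.Helper58.QD.Res

/-!
# MP_087a81_gt: `L²` harmonic forms under quadratic decay of the curvature

Let `g` be a complete Riemannian metric of nonnegative sectional curvature on `ℝⁿ` and `r` the distance from the
origin. If the sectional curvatures are at most `A / (1 + r²)` for some constant `A`, then the `L²` harmonic forms of
every degree form a space of finite dimension.
-/

set_option autoImplicit false

noncomputable section

namespace Pool.Agent.Results.MP_087a81_gt.QuadraticDecay

open Helper62.LH Helper62.DSH Helper58.QD

/-- Let `g` be a complete metric on `ℝⁿ` of nonnegative sectional curvature, `r = dg g 0 x` and `A ≥ 0`. Suppose that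
the sectional curvatures at every point are at most `A / (1 + r²)`. Then for every `k + l = n` the `L²` harmonic forms of
degree `k` form a space of finite dimension. -/
theorem result (n : ℕ) (g : E n → Bl n) (hg : IsMet g) (hc : Cpl g) (hs : SecNonneg g)
    (A : ℝ) (hA : 0 ≤ A) (hcurv : ∀ x, SecLe g x (A / (1 + dg g 0 x ^ 2)))
    (k l : ℕ) (h : k + l = n) :
    ∃ N : ℕ, DimLe {φ : E n → E n [⋀^Fin k]→L[ℝ] ℝ | Harmonic h g φ} N :=
  (main_all n g hg hc hs A hA).2 hcurv k l h

end Pool.Agent.Results.MP_087a81_gt.QuadraticDecay
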